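import Mathlib

set_option autoImplicit false

namespace Pool.Agent.Results.MP_b85c6a_co.Counter

open Finset Filter Topology

/-- The Hamming graph `H(d,n)`. -/
def Ham (d n : ℕ) : SimpleGraph (Fin d → Fin n) where
  Adj x y := hammingDist x y = 1
  symm := ⟨fun x y h => by rwa [hammingDist_comm]⟩
  loopless := ⟨fun x h => by simp at h⟩

/-- A legal move: stay put or go to a neighbour. -/
def Step {V : Type} (G : SimpleGraph V) (u v : V) : Prop := u = v ∨ G.Adj u v

/-- `c` cops can guarantee seeing the robber in the `ℓ`-visibility game. Until they see him the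
cops have no information, so their strategy is a fixed sequence `C` of positions; the robber
at `r t` is seen from the cop positions `C t` (after his move) or `C (t+1)` (after theirs). -/
def CopsSee {V : Type} (G : SimpleGraph V) (ℓ c : ℕ) : Prop :=
  ∃ C : ℕ → Fin c → V, (∀ t j, Step G (C t j) (C (t + 1) j)) ∧
    ∀ r : ℕ → V, (∀ t, Step G (r t) (r (t + 1))) →
      ∃ t j, G.edist (C t j) (r t) ≤ ℓ ∨ G.edist (C (t + 1) j) (r t) ≤ ℓ

/-- The number `c'_ℓ(G)`. -/
noncomputable def cnum {V : Type} (G : SimpleGraph V) (ℓ : ℕ) : ℕ := sInf {c | CopsSee G ℓ c}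

lemma ham_le {d n : ℕ} {x y : Fin d → Fin n} (w : (Ham d n).Walk x y) :
    hammingDist x y ≤ w.length := by
  induction w with
  | nil => simp
  | @cons a b c h w ih =>
    have := hammingDist_triangle a b c
    have h' : hammingDist a b = 1 := h
    simp only [SimpleGraph.Walk.length_cons]
    omega

lemma far {n : ℕ} {x y : Fin 3 → Fin n} (h : ∀ i, x i ≠ y i) :
    ¬ (Ham 3 n).edist x y ≤ (2 : ℕ) := by
  intro h2
  obtain ⟨w, hw⟩ := SimpleGraph.exists_walk_of_edist_ne_top
    (ne_top_of_le_ne_top (by simp) h2)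
  have h3 := ham_le w
  have h4 : hammingDist x y = 3 := by simp [hammingDist, h]
  rw [← hw] at h2
  have : w.length ≤ 2 := by exact_mod_cast h2
  omega

def am (g : Fin 3 → ℕ) : Fin 3 :=
  if g 1 ≤ g 0 ∧ g 2 ≤ g 0 then 0 else if g 2 ≤ g 1 then 1 else 2

def ht (x : ℕ → Fin 3 → ℕ) : ℕ → Fin 3 → ℕ
  | 0 => fun _ => 0
  | t + 1 => fun i => if am (fun k => ht x t k + x t k) = i then 0 else ht x t i + x t i

lemma ht_bd (x : ℕ → Fin 3 → ℕ) (c : ℕ) (hx : ∀ t, x t 0 + x t 1 + x t 2 ≤ c) (t : ℕ) :
    ht x t 0 + ht x t 1 + ht x t 2 ≤ 2 * c ∧ 2 * ht x t 0 ≤ 3 * c ∧ 2 * ht x t 1 ≤ 3 * c ∧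
      2 * ht x t 2 ≤ 3 * c := by
  induction t with
  | zero => simp [ht]
  | succ t ih =>
    have := hx t
    simp only [ht, am]
    by_cases h1 : ht x t 1 + x t 1 ≤ ht x t 0 + x t 0 ∧ ht x t 2 + x t 2 ≤ ht x t 0 + x t 0
    · rw [if_pos h1, if_pos rfl, if_neg (by decide), if_neg (by decide)]
      omega
    · rw [if_neg h1]
      by_cases h2 : ht x t 2 + x t 2 ≤ ht x t 1 + x t 1
      · rw [if_pos h2, if_neg (by decide), if_pos rfl, if_neg (by decide)]
        omega
      · rw [if_neg h2, if_neg (by decide), if_neg (by decide), if_pos rfl]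
        omega

section
variable {n c : ℕ} (C : ℕ → Fin c → Fin 3 → Fin n)

def mv (t : ℕ) (i : Fin 3) : ℕ := (univ.filter (fun j => C t j i ≠ C (t + 1) j i)).card

def sg (t : ℕ) : Fin 3 := am (fun k => ht (mv C) t k + mv C t k)

def S (t : ℕ) (i : Fin 3) : Finset (Fin n) := univ.image (fun j => C t j i)

def W (i : Fin 3) : ℕ → ℕ → Finset (Fin n)
  | 0, t => S C t i
  | k + 1, t => S C t i ∪ if sg C t = i then S C (t + 1) i else W i k (t + 1)

lemma mv_le (hC : ∀ t j, Step (Ham 3 n) (C t j) (C (t + 1) j)) (t : ℕ) :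
    mv C t 0 + mv C t 1 + mv C t 2 ≤ c := by
  have h1 : ∑ i, mv C t i = ∑ j, hammingDist (C t j) (C (t + 1) j) := by
    simp only [mv, hammingDist, card_filter]
    exact sum_comm
  have h2 : ∑ j, hammingDist (C t j) (C (t + 1) j) ≤ ∑ _j : Fin c, 1 := by
    refine sum_le_sum fun j _ => ?_
    rcases hC t j with h | h
    · simp [h]
    · exact le_of_eq h
  rw [Fin.sum_univ_three] at h1
  simp at h2
  omega

lemma S_sub (i : Fin 3) (k t : ℕ) : S C t i ⊆ W C i k t := by
  cases k
  · exact Subset.rfl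
  · exact subset_union_left

lemma card_un (t : ℕ) (i : Fin 3) (A : Finset (Fin n)) (hA : S C (t + 1) i ⊆ A) :
    (S C t i ∪ A).card ≤ A.card + mv C t i := by
  have : S C t i ∪ A ⊆ A ∪ (univ.filter (fun j => C t j i ≠ C (t + 1) j i)).image
      (fun j => C t j i) := by
    intro a ha
    rcases mem_union.1 ha with h | h
    · obtain ⟨j, -, rfl⟩ := mem_image.1 h
      by_cases e : C t j i = C (t + 1) j i
      · exact mem_union_left _ (hA (mem_image.2 ⟨j, mem_univ _, e.symm⟩))
      · exact mem_union_right _ (mem_image.2 ⟨j, by simpa using e, rfl⟩)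
    · exact mem_union_left _ h
  exact (card_le_card this).trans ((card_union_le _ _).trans
    (Nat.add_le_add_left card_image_le _))

lemma W_card (hC : ∀ t j, Step (Ham 3 n) (C t j) (C (t + 1) j)) (i : Fin 3) (k : ℕ) :
    ∀ t, 2 * (W C i k t).card + 2 * ht (mv C) t i ≤ 7 * c := by
  have hS : ∀ t, (S C t i).card ≤ c := fun t => card_image_le.trans (by simp)
  have hb : ∀ t, 2 * ht (mv C) t i ≤ 3 * c ∧ mv C t i ≤ c := fun t => by
    have h1 := ht_bd (mv C) c (mv_le C hC) t
    have h2 := mv_le C hC t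
    fin_cases i <;> simp <;> omega
  induction k with
  | zero =>
    intro t
    have := hS t
    have := hb t
    simp only [W]
    omega
  | succ k ih =>
    intro t
    have h1 := hb t
    simp only [W]
    split_ifs with h
    · have := card_un C t i _ Subset.rfl
      have := hS (t + 1)
      omega
    · have h2 := card_un C t i _ (S_sub C i k (t + 1))
      have h3 := ih (t + 1)
      have h4 : ht (mv C) (t + 1) i = ht (mv C) t i + mv C t i := if_neg h
      omega

lemma W_mono (i : Fin 3) (k : ℕ) : ∀ t, W C i k t ⊆ W C i (k + 1) t := by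
  induction k with
  | zero => intro t; exact subset_union_left
  | succ k ih =>
    intro t
    show S C t i ∪ (if sg C t = i then S C (t + 1) i else W C i k (t + 1)) ⊆
      S C t i ∪ (if sg C t = i then S C (t + 1) i else W C i (k + 1) (t + 1))
    split_ifs
    · exact Subset.rfl
    · exact union_subset_union Subset.rfl (ih _)

lemma good (hC : ∀ t j, Step (Ham 3 n) (C t j) (C (t + 1) j)) (hn : 7 * c < 2 * n) (i : Fin 3)
    (t : ℕ) : ∃ a, ∀ k, a ∉ W C i k t := by
  by_contra h
  push Not at h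
  choose f hf using h
  have hm : Monotone (fun k => W C i k t) := monotone_nat_of_le_succ fun k => W_mono C i k t
  have h1 : univ ⊆ W C i (univ.sup f) t := fun a _ => hm (le_sup (mem_univ a)) (hf a)
  have h2 := card_le_card h1
  have h3 := W_card C hC i (univ.sup f) t
  simp at h2
  omega

end

lemma lower (n c : ℕ) (h : CopsSee (Ham 3 n) 2 c) : 2 * n ≤ 7 * c := by
  by_contra hn
  obtain ⟨C, hC, h⟩ := h
  choose g hg using good C hC (not_le.1 hn)
  let r : ℕ → Fin 3 → Fin n := fun t => Nat.rec (fun i => g i 0)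
    (fun t y => Function.update y (sg C t) (g (sg C t) (t + 1))) t
  have r1 : ∀ t, r (t + 1) = Function.update (r t) (sg C t) (g (sg C t) (t + 1)) := fun _ => rfl
  have inv : ∀ t i k, r t i ∉ W C i k t := by
    intro t
    induction t with
    | zero => intro i; exact hg i 0
    | succ t ih =>
      intro i k
      rw [r1]
      by_cases e : i = sg C t
      · subst e
        rw [Function.update_self]
        exact hg _ _ _
      · rw [Function.update_of_ne e]
        intro hh
        refine ih i (k + 1) (mem_union_right _ ?_)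
        rwa [if_neg (Ne.symm e)]
  obtain ⟨t, j, hh⟩ := h r fun t => by
    by_cases e : r t = r (t + 1)
    · exact Or.inl e
    · refine Or.inr (le_antisymm ?_ (hammingDist_pos.2 e))
      refine (card_le_card fun i hi => ?_).trans (card_singleton (sg C t)).le
      by_contra h'
      rw [mem_singleton] at h'
      rw [mem_filter, r1, Function.update_of_ne h'] at hi
      exact hi.2 rfl
  rcases hh with hh | hh
  · exact far (fun i e => inv t i 0 (mem_image.2 ⟨j, mem_univ _, e⟩)) hh
  · refine far (fun i e => inv t i 1 (mem_union_right _ ?_)) hh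
    split_ifs <;> exact mem_image.2 ⟨j, mem_univ _, e⟩

lemma ne (n : ℕ) : ∃ c, CopsSee (Ham 3 n) 2 c := by
  let e := Fintype.equivFin (Fin 3 → Fin n)
  exact ⟨_, fun _ j => e.symm j, fun _ _ => Or.inl rfl, fun r _ => ⟨0, e (r 0), by simp⟩⟩

theorem result :
    (∀ n : ℕ, (∃ c, CopsSee (Ham 3 n) 2 c) ∧ 2 * n ≤ 7 * cnum (Ham 3 n) 2) ∧
    ¬ ∀ d : ℕ, 1 ≤ d →
      Tendsto (fun n : ℕ => (cnum (Ham d n) (d - 1) : ℝ) * (d + 1) / n) atTop (𝓝 1) := by
  have h1 : ∀ n, 2 * n ≤ 7 * cnum (Ham 3 n) 2 := fun n => lower n _ (Nat.sInf_mem (ne n))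
  refine ⟨fun n => ⟨ne n, h1 n⟩, fun h => ?_⟩
  obtain ⟨n, hn, hn0⟩ := (((h 3 (by norm_num)).eventually
    (gt_mem_nhds (show (1 : ℝ) < 8 / 7 by norm_num))).and (eventually_gt_atTop 0)).exists
  have h2 : (0 : ℝ) < n := by exact_mod_cast hn0
  have h3 : (2 : ℝ) * n ≤ 7 * cnum (Ham 3 n) 2 := by exact_mod_cast h1 n
  rw [div_lt_iff₀ h2] at hn
  norm_num at hn
  linarith

end Pool.Agent.Results.MP_b85c6a_co.Counter
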